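import Mathlib

/-!
# Polynomial value sets recognisable in abstract numeration systems

We prove: if `P(ℕ)` (with `P ∈ ℚ[X]`, `P(ℕ) ⊆ ℕ`, `deg P ≥ 2`) is recognisable in an abstract
numeration system `S = (L, A, <)`, then `L` is a polynomial language.
-/

namespace Pool.Agent.Results.MP_8c22a7_lc.PolynomialValueSets

open Filter Asymptotics

/-- An abstract numeration system over the totally ordered alphabet `A`: an infinite regular
language over `A`. -/
structure ANS (A : Type*) [LinearOrder A] where
  /-- the numeration language -/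
  L : Language A
  regular : L.IsRegular
  infinite : (L : Set (List A)).Infinite

namespace ANS

variable {A : Type*} [LinearOrder A]

/-- `val_S(w)`: the number of words of `L` which strictly precede `w` in the genealogical
order (first by length, then lexicographically). -/
noncomputable def val (S : ANS A) (w : List A) : ℕ :=
  {u : List A | u ∈ S.L ∧ List.Shortlex (· < ·) u w}.ncard

/-- `rep_S(n)`: the `(n+1)`-st word of `L` in the genealogical order, i.e. the word `w ∈ L` with
`val_S(w) = n`. -/
noncomputable def rep (S : ANS A) (n : ℕ) : List A :=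
  Function.invFunOn S.val {w : List A | w ∈ S.L} n

/-- `X ⊆ ℕ` is `S`-recognisable if the language `rep_S(X)` is regular. -/
def Recognisable (S : ANS A) (X : Set ℕ) : Prop :=
  Language.IsRegular (S.rep '' X : Set (List A))

end ANS

/-- A language is polynomial if its number of words of length `n` is `O(n^k)` for some `k`. -/
def IsPolynomialLanguage {A : Type*} (L : Language A) : Prop :=
  ∃ k : ℕ, (fun n : ℕ => ({w : List A | w ∈ L ∧ w.length = n}.ncard : ℝ)) =O[atTop]
    (fun n : ℕ => (n : ℝ) ^ k)

/-- The value set `P(ℕ)`, as a set of natural numbers. -/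
def valueSet (P : Polynomial ℚ) : Set ℕ := {m : ℕ | ∃ n : ℕ, P.eval (n : ℚ) = (m : ℚ)}

/-! ## The genealogical order -/

section Order

variable {A : Type*} [LinearOrder A]

theorem sl_iff {u v : List A} : List.Shortlex (· < ·) u v ↔
    u.length < v.length ∨ (u.length = v.length ∧ u < v) := by
  rw [List.shortlex_def]
  exact Iff.rfl

theorem sl_trans {u v w : List A} (h1 : List.Shortlex (· < ·) u v)
    (h2 : List.Shortlex (· < ·) v w) : List.Shortlex (· < ·) u w := by
  rw [sl_iff] at *
  rcases h1 with h1 | ⟨h1, h1'⟩ <;> rcases h2 with h2 | ⟨h2, h2'⟩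
  · left; omega
  · left; omega
  · left; omega
  · right; exact ⟨by omega, lt_trans h1' h2'⟩

theorem sl_irrefl (u : List A) : ¬ List.Shortlex (· < ·) u u := by
  rw [sl_iff]
  rintro (h | ⟨_, h⟩)
  · omega
  · exact lt_irrefl _ h

theorem sl_trichotomy (u v : List A) :
    List.Shortlex (· < ·) u v ∨ u = v ∨ List.Shortlex (· < ·) v u := by
  simp only [sl_iff]
  rcases lt_trichotomy u.length v.length with h | h | h
  · exact Or.inl (Or.inl h)
  · rcases lt_trichotomy u v with h' | h' | h'
    · exact Or.inl (Or.inr ⟨h, h'⟩)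
    · exact Or.inr (Or.inl h')
    · exact Or.inr (Or.inr (Or.inr ⟨h.symm, h'⟩))
  · exact Or.inr (Or.inr (Or.inl h))

theorem append_lt_append_iff (p z z' : List A) : p ++ z < p ++ z' ↔ z < z' := by
  induction p with
  | nil => simp
  | cons a p ih => simp [ih]

/-- A word of the same length squeezed between two words with the same beginning `p` begins
with `p`. -/
theorem exists_append_of_between (p : List A) : ∀ (u z1 z2 : List A), p ++ z1 ≤ u → u < p ++ z2 →
    ∃ z, u = p ++ z := by
  induction p with
  | nil => intro u z1 z2 _ _; exact ⟨u, rfl⟩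
  | cons a p ih =>
    intro u z1 z2 h1 h2
    cases u with
    | nil =>
      exfalso
      rw [← not_lt] at h1
      exact h1 (by simp)
    | cons b u =>
      rw [List.cons_append, List.cons_lt_cons_iff] at h2
      rw [← not_lt, List.cons_append, List.cons_lt_cons_iff] at h1
      push Not at h1
      obtain ⟨h1a, h1b⟩ := h1
      rcases h2 with h2 | ⟨h2, h2'⟩
      · exact absurd h2 (not_lt.mpr h1a)
      · subst h2
        obtain ⟨z, hz⟩ := ih u z1 z2 (h1b rfl) h2'
        exact ⟨z, by rw [hz]; rfl⟩

end Order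

section Val

variable {A : Type*} [Fintype A] [LinearOrder A]

theorem finite_sl (w : List A) : {u : List A | List.Shortlex (· < ·) u w}.Finite := by
  apply (List.finite_length_le A w.length).subset
  intro u hu
  rw [Set.mem_ofPred_eq, sl_iff] at hu
  simp only [Set.mem_ofPred_eq]
  omega

theorem finite_below (L : Language A) (w : List A) :
    {u : List A | u ∈ L ∧ List.Shortlex (· < ·) u w}.Finite :=
  (finite_sl w).subset (fun _ hu => hu.2)

theorem val_lt_val (S : ANS A) {u v : List A} (hu : u ∈ S.L)
    (h : List.Shortlex (· < ·) u v) : S.val u < S.val v := by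
  apply Set.ncard_lt_ncard _ (finite_below S.L v)
  refine ⟨fun x hx => ⟨hx.1, sl_trans hx.2 h⟩, fun hsub => ?_⟩
  exact sl_irrefl u (hsub ⟨hu, h⟩).2

theorem val_le_val (S : ANS A) {u v : List A} (h : List.Shortlex (· < ·) u v) :
    S.val u ≤ S.val v :=
  Set.ncard_le_ncard (fun _ hx => ⟨hx.1, sl_trans hx.2 h⟩) (finite_below S.L v)

theorem val_injOn (S : ANS A) : Set.InjOn S.val {w : List A | w ∈ S.L} := by
  intro u hu v hv h
  rcases sl_trichotomy u v with h' | h' | h'
  · have := val_lt_val S hu h'; omega
  · exact h'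
  · have := val_lt_val S hv h'; omega

theorem sl_of_val_lt (S : ANS A) {u v : List A} (h : S.val u < S.val v) :
    List.Shortlex (· < ·) u v := by
  rcases sl_trichotomy u v with h' | h' | h'
  · exact h'
  · subst h'; omega
  · have := val_le_val S h'; omega

theorem exists_val_ge (S : ANS A) (n : ℕ) : ∃ w ∈ S.L, n ≤ S.val w := by
  by_contra hcon
  push Not at hcon
  apply S.infinite
  apply Set.Finite.of_injOn (f := S.val) (t := Set.Iio n) _ (val_injOn S) (Set.finite_Iio n)
  intro w hw
  exact hcon w hw

theorem exists_val_eq (S : ANS A) (n : ℕ) : ∃ w ∈ S.L, S.val w = n := by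
  have hwf : WellFounded (List.Shortlex (fun a b : A => a < b)) := List.Shortlex.wf wellFounded_lt
  obtain ⟨w, ⟨hwL, hwn⟩, hmin⟩ := hwf.has_min {w : List A | w ∈ S.L ∧ n ≤ S.val w}
    (by obtain ⟨w, hw, hw'⟩ := exists_val_ge S n; exact ⟨w, hw, hw'⟩)
  refine ⟨w, hwL, le_antisymm ?_ hwn⟩
  have hfin := finite_below S.L w
  have hmaps : Set.MapsTo S.val {u : List A | u ∈ S.L ∧ List.Shortlex (· < ·) u w}
      (Set.Iio n) := by
    intro u hu
    by_contra hcon
    exact hmin u ⟨hu.1, not_lt.mp hcon⟩ hu.2
  have := Set.ncard_le_ncard_of_injOn S.val hmaps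
    ((val_injOn S).mono (fun u hu => hu.1)) (Set.finite_Iio n)
  calc S.val w ≤ (Set.Iio n).ncard := this
    _ = n := by rw [Set.ncard_eq_toFinset_card']; simp

theorem rep_mem (S : ANS A) (n : ℕ) : S.rep n ∈ S.L :=
  Function.invFunOn_mem (f := S.val) (s := {w : List A | w ∈ S.L}) (exists_val_eq S n)

theorem val_rep (S : ANS A) (n : ℕ) : S.val (S.rep n) = n :=
  Function.invFunOn_eq (f := S.val) (s := {w : List A | w ∈ S.L}) (exists_val_eq S n)

theorem rep_val (S : ANS A) {w : List A} (hw : w ∈ S.L) : S.rep (S.val w) = w :=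
  val_injOn S (rep_mem S _) hw (val_rep S _)

/-- `rep_S` enumerates `L` in increasing genealogical order. -/
theorem rep_strictMono (S : ANS A) {m n : ℕ} (h : m < n) :
    List.Shortlex (· < ·) (S.rep m) (S.rep n) := by
  apply sl_of_val_lt S
  rw [val_rep, val_rep]
  exact h

theorem range_rep (S : ANS A) : Set.range S.rep = {w : List A | w ∈ S.L} := by
  ext w
  constructor
  · rintro ⟨n, rfl⟩; exact rep_mem S n
  · intro hw; exact ⟨S.val w, rep_val S hw⟩

end Val


/-! ## The combinatorial core -/

section Core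

variable {A : Type*} [Fintype A] [LinearOrder A]

/-- The number of words of `L` between `p z₁` and `p z₂` only depends on the state reached
by `p`. -/
theorem val_append_diff (S : ANS A) {σ : Type*} (M : DFA A σ) (hM : M.accepts = S.L)
    (p z1 z2 : List A) (hlen : z1.length = z2.length) (hlt : z1 < z2) :
    S.val (p ++ z2) = S.val (p ++ z1) +
      {z : List A | z ∈ M.acceptsFrom (M.eval p) ∧ z.length = z1.length ∧ z1 ≤ z ∧
        z < z2}.ncard := by
  have hmem : ∀ z : List A, p ++ z ∈ S.L ↔ z ∈ M.acceptsFrom (M.eval p) := by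
    intro z
    rw [← hM, DFA.mem_accepts, DFA.mem_acceptsFrom, DFA.eval, DFA.evalFrom_of_append]
  have hset : {u : List A | u ∈ S.L ∧ List.Shortlex (· < ·) u (p ++ z2)} =
      {u : List A | u ∈ S.L ∧ List.Shortlex (· < ·) u (p ++ z1)} ∪
      (fun z => p ++ z) '' {z : List A | z ∈ M.acceptsFrom (M.eval p) ∧ z.length = z1.length ∧
        z1 ≤ z ∧ z < z2} := by
    ext u
    simp only [Set.mem_union, Set.mem_ofPred_eq, Set.mem_image]
    constructor
    · rintro ⟨hu, hsl⟩
      rcases sl_trichotomy u (p ++ z1) with h | h | h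
      · exact Or.inl ⟨hu, h⟩
      · right
        subst h
        exact ⟨z1, ⟨(hmem z1).mp hu, rfl, le_refl _, hlt⟩, rfl⟩
      · right
        rw [sl_iff] at h hsl
        simp only [List.length_append] at h hsl
        have h1 : p.length + z1.length = u.length ∧ p ++ z1 < u := by
          rcases h with h | h
          · rcases hsl with hsl | hsl <;> omega
          · exact h
        have h2 : u.length = p.length + z2.length ∧ u < p ++ z2 := by
          rcases hsl with hsl | hsl
          · omega
          · exact hsl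
        obtain ⟨z, rfl⟩ := exists_append_of_between p u z1 z2 h1.2.le h2.2
        refine ⟨z, ⟨(hmem z).mp hu, ?_, ?_, ?_⟩, rfl⟩
        · have := h1.1
          simp only [List.length_append] at this
          omega
        · exact ((append_lt_append_iff p z1 z).mp h1.2).le
        · exact (append_lt_append_iff p z z2).mp h2.2
    · rintro (⟨hu, hsl⟩ | ⟨z, ⟨hz, hzl, hz1, hz2⟩, rfl⟩)
      · refine ⟨hu, sl_trans hsl ?_⟩
        rw [sl_iff]
        right
        refine ⟨by simp [hlen], (append_lt_append_iff p z1 z2).mpr hlt⟩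
      · refine ⟨(hmem z).mpr hz, ?_⟩
        rw [sl_iff]
        right
        refine ⟨by simp [hzl, hlen], (append_lt_append_iff p z z2).mpr hz2⟩
  have hfin2 : {z : List A | z ∈ M.acceptsFrom (M.eval p) ∧ z.length = z1.length ∧
        z1 ≤ z ∧ z < z2}.Finite := by
    apply (List.finite_length_eq A z1.length).subset
    intro z hz
    exact hz.2.1
  have hdisj : Disjoint {u : List A | u ∈ S.L ∧ List.Shortlex (· < ·) u (p ++ z1)}
      ((fun z => p ++ z) '' {z : List A | z ∈ M.acceptsFrom (M.eval p) ∧ z.length = z1.length ∧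
        z1 ≤ z ∧ z < z2}) := by
    rw [Set.disjoint_left]
    rintro u ⟨_, hsl⟩ ⟨z, ⟨_, hzl, hz1, _⟩, rfl⟩
    rw [sl_iff] at hsl
    rcases hsl with hsl | ⟨_, hsl⟩
    · simp only [List.length_append] at hsl
      omega
    · have := (append_lt_append_iff p z z1).mp hsl
      exact absurd this (not_lt.mpr hz1)
  unfold ANS.val
  rw [hset, Set.ncard_union_eq hdisj (finite_below S.L _) (hfin2.image _),
    Set.ncard_image_of_injective _ (List.append_right_injective p)]

/-- A state is branching if it accepts two different words of the same length. -/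
def Branching {τ : Type*} (M : DFA A τ) (r : τ) : Prop :=
  ∃ z z' : List A, z ≠ z' ∧ z.length = z'.length ∧ z ∈ M.acceptsFrom r ∧ z' ∈ M.acceptsFrom r

theorem Branching.exists_consecutive {τ : Type*} {M : DFA A τ} {r : τ} (h : Branching M r) :
    ∃ z1 z2 : List A, z1.length = z2.length ∧ z1 < z2 ∧ z1 ∈ M.acceptsFrom r ∧
      z2 ∈ M.acceptsFrom r ∧
      ∀ z ∈ M.acceptsFrom r, z.length = z1.length → z1 < z → z2 ≤ z := by
  obtain ⟨z, z', hne, hlen, hz, hz'⟩ := h
  wlog hlt : z < z' generalizing z z'
  · exact this z' z hne.symm hlen.symm hz' hz (lt_of_le_of_ne (not_lt.mp hlt) hne.symm)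
  have hfin : {y : List A | y ∈ M.acceptsFrom r ∧ y.length = z.length ∧ z < y}.Finite := by
    apply (List.finite_length_eq A z.length).subset
    intro y hy
    exact hy.2.1
  obtain ⟨z2, hz2, hmin⟩ := Set.exists_min_image _ id hfin ⟨z', hz', hlen.symm, hlt⟩
  refine ⟨z, z2, hz2.2.1.symm, hz2.2.2, hz, hz2.1, ?_⟩
  intro y hy hyl hzy
  exact hmin y ⟨hy, hyl, hzy⟩

variable (S : ANS A) (X : Set ℕ) (a : ℕ → ℕ)

theorem mem_rep_image_iff (w : List A) : w ∈ S.rep '' X ↔ w ∈ S.L ∧ S.val w ∈ X := by
  constructor
  · rintro ⟨x, hx, rfl⟩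
    exact ⟨rep_mem S x, by rwa [val_rep]⟩
  · rintro ⟨hw, hx⟩
    exact ⟨_, hx, rep_val S hw⟩

/-- Two long words reaching the same (branching) pair of states are equal. -/
theorem eq_of_same_state {σ τ : Type*} (M : DFA A σ) (hM : M.accepts = S.L) (N : DFA A τ)
    (hN : (N.accepts : Set (List A)) = S.rep '' X)
    (ha : StrictMono a) (hgap : StrictMono (fun m => a (m + 1) - a m))
    (hmem : ∀ m, a m ∈ X) (hcov : ∀ x ∈ X, a 0 ≤ x → ∃ m, a m = x)
    {p p' : List A} (h1 : M.eval p = M.eval p') (h2 : N.eval p = N.eval p')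
    (hb : Branching N (N.eval p)) (hp : (S.rep (a 0)).length < p.length)
    (hp' : (S.rep (a 0)).length < p'.length) : p = p' := by
  obtain ⟨z1, z2, hlen, hlt, hz1, hz2, hcons⟩ := hb.exists_consecutive
  have key : ∀ q : List A, M.eval q = M.eval p → N.eval q = N.eval p →
      (S.rep (a 0)).length < q.length → ∃ m, S.val (q ++ z1) = a m ∧
        a (m + 1) - a m = {z : List A | z ∈ M.acceptsFrom (M.eval p) ∧
          z.length = z1.length ∧ z1 ≤ z ∧ z < z2}.ncard := by
    intro q hq1 hq2 hq
    have hmemN : ∀ z : List A, q ++ z ∈ S.rep '' X ↔ z ∈ N.acceptsFrom (N.eval p) := by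
      intro z
      rw [← hN, ← hq2]
      change q ++ z ∈ N.accepts ↔ _
      rw [DFA.mem_accepts, DFA.mem_acceptsFrom, DFA.eval, DFA.evalFrom_of_append]
    have hbig : ∀ z : List A, a 0 ≤ S.val (q ++ z) := by
      intro z
      rw [← val_rep S (a 0)]
      apply val_le_val
      rw [sl_iff]
      left
      simp only [List.length_append]
      omega
    have hR1 := (mem_rep_image_iff S X _).mp ((hmemN z1).mpr hz1)
    have hR2 := (mem_rep_image_iff S X _).mp ((hmemN z2).mpr hz2)
    obtain ⟨m, hm⟩ := hcov _ hR1.2 (hbig z1)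
    obtain ⟨m2, hm2⟩ := hcov _ hR2.2 (hbig z2)
    have hslt : List.Shortlex (· < ·) (q ++ z1) (q ++ z2) := by
      rw [sl_iff]
      right
      exact ⟨by simp [hlen], (append_lt_append_iff q z1 z2).mpr hlt⟩
    have hvlt := val_lt_val S hR1.1 hslt
    have hmm2 : m < m2 := by
      rw [← hm, ← hm2] at hvlt
      exact ha.lt_iff_lt.mp hvlt
    have hm21 : m2 = m + 1 := by
      by_contra hne
      have hlt2 : m + 1 < m2 := by omega
      have hw1 : List.Shortlex (· < ·) (q ++ z1) (S.rep (a (m + 1))) := by
        apply sl_of_val_lt S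
        rw [val_rep, ← hm]
        exact ha (Nat.lt_succ_self m)
      have hw2 : List.Shortlex (· < ·) (S.rep (a (m + 1))) (q ++ z2) := by
        apply sl_of_val_lt S
        rw [val_rep, ← hm2]
        exact ha hlt2
      rw [sl_iff] at hw1 hw2
      simp only [List.length_append] at hw1 hw2
      have hw1' : q.length + z1.length = (S.rep (a (m + 1))).length ∧
          q ++ z1 < S.rep (a (m + 1)) := by
        rcases hw1 with h | h
        · rcases hw2 with h' | h' <;> omega
        · exact h
      have hw2' : (S.rep (a (m + 1))).length = q.length + z2.length ∧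
          S.rep (a (m + 1)) < q ++ z2 := by
        rcases hw2 with h | h
        · omega
        · exact h
      obtain ⟨z, hz⟩ := exists_append_of_between q _ z1 z2 hw1'.2.le hw2'.2
      have hzR : q ++ z ∈ S.rep '' X := by
        rw [← hz]
        exact ⟨_, hmem (m + 1), rfl⟩
      rw [hz] at hw1' hw2'
      have hle := hcons z ((hmemN z).mp hzR) (by
        have := hw1'.1
        simp only [List.length_append] at this
        omega) ((append_lt_append_iff q z1 z).mp hw1'.2)
      exact absurd ((append_lt_append_iff q z z2).mp hw2'.2) (not_lt.mpr hle)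
    refine ⟨m, hm.symm, ?_⟩
    have hd := val_append_diff S M hM q z1 z2 hlen hlt
    rw [← hm, ← hm2, hm21, hq1] at hd
    omega
  obtain ⟨m, hm, hd⟩ := key p rfl rfl hp
  obtain ⟨m', hm', hd'⟩ := key p' h1.symm h2.symm hp'
  have hmm : m = m' := hgap.injective (hd.trans hd'.symm)
  subst hmm
  have hmemN : ∀ q : List A, N.eval q = N.eval p → q ++ z1 ∈ S.L := by
    intro q hq
    have : q ++ z1 ∈ S.rep '' X := by
      rw [← hN]
      change q ++ z1 ∈ N.accepts
      rw [DFA.mem_accepts, DFA.eval, DFA.evalFrom_of_append]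
      change N.evalFrom (N.eval q) z1 ∈ N.accept
      rw [hq]
      exact hz1
    exact ((mem_rep_image_iff S X _).mp this).1
  have heq : p ++ z1 = p' ++ z1 :=
    val_injOn S (hmemN p rfl) (hmemN p' h2.symm) (by rw [hm, hm'])
  exact List.append_cancel_right heq


/-- The language `rep_S(X)` is slender: it has boundedly many words of each length. -/
theorem slender {σ τ : Type} [Fintype σ] [Fintype τ] (M : DFA A σ) (hM : M.accepts = S.L)
    (N : DFA A τ) (hN : (N.accepts : Set (List A)) = S.rep '' X)
    (ha : StrictMono a) (hgap : StrictMono (fun m => a (m + 1) - a m))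
    (hmem : ∀ m, a m ∈ X) (hcov : ∀ x ∈ X, a 0 ≤ x → ∃ m, a m = x) :
    ∃ C : ℕ, ∀ n : ℕ, {w : List A | w ∈ S.rep '' X ∧ w.length = n}.ncard ≤ C := by
  -- the set of words reaching a branching state is finite
  have hfin1 : {p : List A | Branching N (N.eval p) ∧
      (S.rep (a 0)).length < p.length}.Finite := by
    apply Set.Finite.of_injOn (f := fun p : List A => (M.eval p, N.eval p))
      (t := (Set.univ : Set (σ × τ))) (fun _ _ => Set.mem_univ _) _ Set.finite_univ
    intro p hp p' hp' h
    simp only [Prod.mk.injEq] at h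
    exact eq_of_same_state S X a M hM N hN ha hgap hmem hcov h.1 h.2 hp.1 hp.2 hp'.2
  have hfin2 : {p : List A | Branching N (N.eval p)}.Finite := by
    apply (hfin1.union (List.finite_length_le A (S.rep (a 0)).length)).subset
    intro p hp
    by_cases h : (S.rep (a 0)).length < p.length
    · exact Or.inl ⟨hp, h⟩
    · exact Or.inr (not_lt.mp h)
  obtain ⟨K, hK⟩ : ∃ K : ℕ, ∀ p : List A, Branching N (N.eval p) → p.length < K := by
    obtain ⟨K, hK⟩ := (hfin2.image List.length).bddAbove
    refine ⟨K + 1, fun p hp => ?_⟩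
    have := hK (Set.mem_image_of_mem List.length hp)
    omega
  refine ⟨{p : List A | p.length ≤ K}.ncard, fun n => ?_⟩
  rcases lt_or_ge n K with hn | hn
  · apply Set.ncard_le_ncard _ (List.finite_length_le A K)
    intro w hw
    have := hw.2
    simp only [Set.mem_ofPred_eq]
    omega
  · apply Set.ncard_le_ncard_of_injOn (fun w : List A => w.take K) _ _
      (List.finite_length_le A K)
    · intro w hw
      simp only [Set.mem_ofPred_eq, List.length_take]
      omega
    · intro w hw w' hw' h
      simp only at h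
      by_contra hne
      have hnb : ¬ Branching N (N.eval (w.take K)) := by
        intro hb
        have := hK _ hb
        have h2 := hw.2
        simp only [List.length_take] at this
        omega
      apply hnb
      refine ⟨w.drop K, w'.drop K, ?_, ?_, ?_, ?_⟩
      · intro hd
        apply hne
        rw [← List.take_append_drop K w, ← List.take_append_drop K w', h, hd]
      · rw [List.length_drop, List.length_drop, hw.2, hw'.2]
      · have h1 : w ∈ N.accepts := by
          rw [hN]; exact hw.1
        rw [← List.take_append_drop K w, DFA.mem_accepts, DFA.eval,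
          DFA.evalFrom_of_append] at h1
        exact h1
      · have h1 : w' ∈ N.accepts := by
          rw [hN]; exact hw'.1
        rw [← List.take_append_drop K w', ← h, DFA.mem_accepts, DFA.eval,
          DFA.evalFrom_of_append] at h1
        exact h1

/-- The combinatorial core: the number of words of length `n` of `L` is bounded in terms of
the gaps of the sequence `a`. -/
theorem core (hX : S.Recognisable X)
    (ha : StrictMono a) (hgap : StrictMono (fun m => a (m + 1) - a m))
    (hmem : ∀ m, a m ∈ X) (hcov : ∀ x ∈ X, a 0 ≤ x → ∃ m, a m = x) :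
    ∃ C n0 : ℕ, ∀ n : ℕ, n0 ≤ n → {w : List A | w ∈ S.L ∧ w.length = n}.ncard ≤
      (C + 1) * (a (C * (n + 1) + C + 1) - a (C * (n + 1) + C)) := by
  obtain ⟨σ, hσ, M, hM⟩ := S.regular
  obtain ⟨τ, hτ, N, hN⟩ := hX
  obtain ⟨C, hC⟩ := slender S X a M hM N hN ha hgap hmem hcov
  refine ⟨C, (S.rep (a 0)).length + 1, fun n hn => ?_⟩
  -- number of words of length at most `k` in `rep_S(X)`
  have hR : ∀ k : ℕ, {w : List A | w ∈ S.rep '' X ∧ w.length ≤ k}.ncard ≤ C * (k + 1) := by
    intro k
    induction k with
    | zero =>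
      have : {w : List A | w ∈ S.rep '' X ∧ w.length ≤ 0} =
          {w : List A | w ∈ S.rep '' X ∧ w.length = 0} := by
        ext w; simp
      rw [this]
      have := hC 0
      omega
    | succ k ih =>
      have : {w : List A | w ∈ S.rep '' X ∧ w.length ≤ k + 1} =
          {w : List A | w ∈ S.rep '' X ∧ w.length ≤ k} ∪
          {w : List A | w ∈ S.rep '' X ∧ w.length = k + 1} := by
        ext w
        simp only [Set.mem_ofPred_eq, Set.mem_union]
        constructor
        · rintro ⟨h1, h2⟩
          rcases Nat.lt_or_ge w.length (k + 1) with h | h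
          · exact Or.inl ⟨h1, by omega⟩
          · exact Or.inr ⟨h1, by omega⟩
        · rintro (⟨h1, h2⟩ | ⟨h1, h2⟩)
          · exact ⟨h1, by omega⟩
          · exact ⟨h1, by omega⟩
      rw [this]
      calc _ ≤ _ := Set.ncard_union_le _ _
        _ ≤ C * (k + 1) + C := Nat.add_le_add ih (hC (k + 1))
        _ = C * (k + 1 + 1) := by ring
  have hrepinj : Function.Injective (fun m => S.rep (a m)) := by
    intro m m' h
    apply ha.injective
    have := congrArg S.val h
    simpa only [val_rep] using this
  have hlenmono : ∀ m m', m ≤ m' → (S.rep (a m)).length ≤ (S.rep (a m')).length := by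
    intro m m' h
    rcases Nat.eq_or_lt_of_le h with h | h
    · rw [h]
    · have := rep_strictMono S (ha h)
      rw [sl_iff] at this
      omega
  -- the largest `m` with `|rep (a m)| < n`
  have hbound : ∀ m, (S.rep (a m)).length ≤ n → m + 1 ≤ C * (n + 1) := by
    intro m hm
    calc m + 1 = (Set.Iic m).ncard := by
          rw [Set.ncard_eq_toFinset_card']; simp
      _ ≤ {w : List A | w ∈ S.rep '' X ∧ w.length ≤ n}.ncard := by
          apply Set.ncard_le_ncard_of_injOn (fun m => S.rep (a m)) _ hrepinj.injOn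
            ((List.finite_length_le A n).subset (fun w hw => hw.2))
          intro i hi
          exact ⟨⟨_, hmem i, rfl⟩, (hlenmono i m hi).trans hm⟩
      _ ≤ _ := hR n
  obtain ⟨m, hm, hmax⟩ : ∃ m, (S.rep (a m)).length < n ∧
      n ≤ (S.rep (a (m + 1))).length := by
    by_contra hcon
    push Not at hcon
    have hall : ∀ m, (S.rep (a m)).length < n := by
      intro m
      induction m with
      | zero => omega
      | succ m ih => exact hcon m ih
    have h1 := hbound (C * (n + 1)) (hall _).le
    omega
  have hbig : n < (S.rep (a (m + C + 1))).length := by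
    by_contra hcon
    push Not at hcon
    have h1 : C + 1 ≤ {w : List A | w ∈ S.rep '' X ∧ w.length = n}.ncard := by
      calc C + 1 = (Set.Iic C).ncard := by
            rw [Set.ncard_eq_toFinset_card']; simp
        _ ≤ _ := by
          apply Set.ncard_le_ncard_of_injOn (fun i => S.rep (a (m + 1 + i))) _ _
            ((List.finite_length_eq A n).subset (fun w hw => hw.2))
          · intro i hi
            have hi' : i ≤ C := hi
            refine ⟨⟨_, hmem _, rfl⟩, ?_⟩
            have h2 := hlenmono (m + 1) (m + 1 + i) (by omega)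
            have h3 := hlenmono (m + 1 + i) (m + C + 1) (by omega)
            omega
          · intro i _ j _ h
            have := hrepinj h
            omega
    have := hC n
    omega
  have hm1 := hbound m hm.le
  -- count the words of length `n`
  have hcount : {w : List A | w ∈ S.L ∧ w.length = n}.ncard ≤ a (m + C + 1) - a m := by
    calc {w : List A | w ∈ S.L ∧ w.length = n}.ncard ≤ (Set.Ico (a m) (a (m + C + 1))).ncard := by
          apply Set.ncard_le_ncard_of_injOn S.val _ _ (Set.finite_Ico _ _)
          · intro w hw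
            have h1 : List.Shortlex (· < ·) (S.rep (a m)) w := by
              rw [sl_iff]; left; rw [hw.2]; exact hm
            have h2 : List.Shortlex (· < ·) w (S.rep (a (m + C + 1))) := by
              rw [sl_iff]; left; rw [hw.2]; exact hbig
            constructor
            · rw [← val_rep S (a m)]
              exact val_le_val S h1
            · rw [← val_rep S (a (m + C + 1))]
              exact val_lt_val S hw.1 h2
          · exact (val_injOn S).mono (fun w hw => hw.1)
      _ = a (m + C + 1) - a m := by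
          rw [Set.ncard_eq_toFinset_card']; simp
  refine hcount.trans ?_
  have htel : ∀ k : ℕ, a (m + k + 1) - a m ≤ (k + 1) * (a (m + k + 1) - a (m + k)) := by
    intro k
    induction k with
    | zero => simp
    | succ k ih =>
      have h1 : a (m + k + 1) - a (m + k) ≤ a (m + (k + 1) + 1) - a (m + (k + 1)) :=
        (hgap (show m + k < m + (k + 1) by omega)).le
      have h2 : a (m + (k + 1) + 1) - a m =
          (a (m + (k + 1) + 1) - a (m + (k + 1))) + (a (m + k + 1) - a m) := by
        have h3 := ha (show m + (k + 1) < m + (k + 1) + 1 by omega)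
        have h4 := ha (show m < m + k + 1 by omega)
        have h5 : a (m + (k + 1)) = a (m + k + 1) := rfl
        omega
      rw [h2]
      calc _ ≤ (a (m + (k + 1) + 1) - a (m + (k + 1))) +
            (k + 1) * (a (m + (k + 1) + 1) - a (m + (k + 1))) :=
            Nat.add_le_add_left (ih.trans (Nat.mul_le_mul_left _ h1)) _
        _ = _ := by ring
  refine (htel C).trans (Nat.mul_le_mul_left _ ?_)
  exact hgap.monotone (show m + C ≤ C * (n + 1) + C by omega)

end Core


/-! ## The sequence of values of a polynomial -/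

section Poly

open Polynomial

/-- The forward difference `P(X+1) - P(X)`. -/
noncomputable def fd (P : ℚ[X]) : ℚ[X] := P.comp (X + C 1) - P

theorem fd_eval (P : ℚ[X]) (x : ℚ) : (fd P).eval x = P.eval (x + 1) - P.eval x := by
  simp [fd]

theorem fd_natDegree (P : ℚ[X]) (hP : 1 ≤ P.natDegree) :
    (fd P).natDegree ≤ P.natDegree - 1 := by
  have hP0 : P ≠ 0 := by
    rintro rfl
    simp at hP
  have h1 : P.comp (X + C 1) = taylor 1 P := by rw [taylor_apply]
  have hd : (P.comp (X + C 1)).degree = P.degree := by
    rw [h1, degree_taylor]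
  have hl : (P.comp (X + C 1)).leadingCoeff = P.leadingCoeff := by
    rw [h1, leadingCoeff_taylor]
  have := degree_sub_lt_right hd hP0 hl
  have h2 : (fd P).degree < P.degree := this
  by_cases h0 : fd P = 0
  · rw [h0]; simp
  · have := natDegree_lt_natDegree h0 h2
    omega

theorem tendsto_of_pos (P : ℚ[X]) (h1 : 1 ≤ P.natDegree) (h2 : 0 < P.leadingCoeff) :
    Tendsto (fun n : ℕ => P.eval (n : ℚ)) atTop atTop := by
  have h3 : 0 < P.degree := natDegree_pos_iff_degree_pos.mp (by omega)
  exact (P.tendsto_atTop_of_leadingCoeff_nonneg h3 h2.le).comp tendsto_natCast_atTop_atTop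

/-- A polynomial that is positive leading coefficient is eventually positive. -/
theorem eventually_pos (P : ℚ[X]) (h : 0 < P.leadingCoeff) :
    ∀ᶠ n : ℕ in atTop, 0 < P.eval (n : ℚ) := by
  rcases Nat.eq_zero_or_pos P.natDegree with h0 | h0
  · rw [natDegree_eq_zero] at h0
    obtain ⟨c, rfl⟩ := h0
    simp at h ⊢
    exact ⟨0, fun _ _ => h⟩
  · exact (tendsto_of_pos P h0 h).eventually_gt_atTop 0

theorem eventually_nonpos (P : ℚ[X]) (h : P.leadingCoeff ≤ 0) :
    ∀ᶠ n : ℕ in atTop, P.eval (n : ℚ) ≤ 0 := by
  rcases h.eq_or_lt with h | h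
  · rw [leadingCoeff_eq_zero] at h
    subst h
    simp
  · have := eventually_pos (-P) (by rw [leadingCoeff_neg]; linarith)
    filter_upwards [this] with n hn
    simp at hn
    exact hn.le

theorem fd_leadingCoeff_pos (P : ℚ[X]) (h1 : 1 ≤ P.natDegree) (h2 : 0 < P.leadingCoeff) :
    0 < (fd P).leadingCoeff := by
  by_contra hcon
  push Not at hcon
  obtain ⟨n0, hn0⟩ := eventually_atTop.mp (eventually_nonpos _ hcon)
  have hb : ∀ k : ℕ, P.eval ((n0 + k : ℕ) : ℚ) ≤ P.eval (n0 : ℚ) := by
    intro k
    induction k with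
    | zero => simp
    | succ k ih =>
      have := hn0 (n0 + k) (by omega)
      rw [fd_eval] at this
      have h3 : ((n0 + (k + 1) : ℕ) : ℚ) = ((n0 + k : ℕ) : ℚ) + 1 := by push_cast; ring
      rw [h3]
      linarith
  obtain ⟨n1, hn1⟩ := eventually_atTop.mp
    ((tendsto_of_pos P h1 h2).eventually_gt_atTop (P.eval (n0 : ℚ)))
  have := hn1 (n0 + n1) (by omega)
  have := hb n1
  linarith

theorem fd_natDegree_pos (P : ℚ[X]) (h : 2 ≤ P.natDegree) : 1 ≤ (fd P).natDegree := by
  by_contra hcon
  have h0 : (fd P).natDegree = 0 := by omega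
  rw [natDegree_eq_zero] at h0
  obtain ⟨c, hc⟩ := h0
  have hlin : ∀ n : ℕ, P.eval (n : ℚ) = P.eval 0 + c * n := by
    intro n
    induction n with
    | zero => simp
    | succ n ih =>
      have := fd_eval P (n : ℚ)
      rw [← hc, eval_C] at this
      push_cast
      linarith
  have heq : P = C (P.eval 0) + C c * X := by
    apply eq_of_infinite_eval_eq
    apply Set.Infinite.mono _ (Set.infinite_range_of_injective (Nat.cast_injective (R := ℚ)))
    rintro _ ⟨n, rfl⟩
    simp only [Set.mem_ofPred_eq, eval_add, eval_C, eval_mul, eval_X]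
    exact hlin n
  have : P.natDegree ≤ 1 := by
    rw [heq]
    refine (natDegree_add_le _ _).trans ?_
    simp only [natDegree_C]
    exact max_le (by omega) ((natDegree_C_mul_le _ _).trans natDegree_X_le)
  omega

theorem exists_bound (P : ℚ[X]) : ∃ K : ℕ, ∀ n : ℕ, P.eval (n : ℚ) ≤ K * ((n : ℚ) + 1) ^ P.natDegree := by
  obtain ⟨K, hK⟩ := exists_nat_ge (∑ i ∈ Finset.range (P.natDegree + 1), |P.coeff i|)
  refine ⟨K, fun n => ?_⟩
  rw [eval_eq_sum_range]
  calc ∑ i ∈ Finset.range (P.natDegree + 1), P.coeff i * (n : ℚ) ^ i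
      ≤ ∑ i ∈ Finset.range (P.natDegree + 1), |P.coeff i| * ((n : ℚ) + 1) ^ P.natDegree := by
        apply Finset.sum_le_sum
        intro i hi
        have hi' : i ≤ P.natDegree := by
          have := Finset.mem_range.mp hi
          omega
        have hn : (0 : ℚ) ≤ n := Nat.cast_nonneg n
        calc P.coeff i * (n : ℚ) ^ i ≤ |P.coeff i| * (n : ℚ) ^ i :=
              mul_le_mul_of_nonneg_right (le_abs_self _) (by positivity)
          _ ≤ |P.coeff i| * ((n : ℚ) + 1) ^ P.natDegree := by
              apply mul_le_mul_of_nonneg_left _ (abs_nonneg _)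
              calc (n : ℚ) ^ i ≤ ((n : ℚ) + 1) ^ i := pow_le_pow_left₀ hn (by linarith) i
                _ ≤ _ := pow_le_pow_right₀ (by linarith) hi'
    _ = (∑ i ∈ Finset.range (P.natDegree + 1), |P.coeff i|) * ((n : ℚ) + 1) ^ P.natDegree := by
        rw [Finset.sum_mul]
    _ ≤ _ := by
        apply mul_le_mul_of_nonneg_right hK
        positivity

end Poly

/-- Extracting the eventually increasing sequence of values. -/
theorem exists_sequence (P : Polynomial ℚ) (hP : ∀ n : ℕ, ∃ m : ℕ, P.eval (n : ℚ) = (m : ℚ))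
    (hdeg : 2 ≤ P.natDegree) :
    ∃ (a : ℕ → ℕ) (K n0 : ℕ), StrictMono a ∧ StrictMono (fun m => a (m + 1) - a m) ∧
      (∀ m, a m ∈ valueSet P) ∧ (∀ x ∈ valueSet P, a 0 ≤ x → ∃ m, a m = x) ∧
      (∀ m, a (m + 1) - a m ≤ K * (n0 + m + 1) ^ (P.natDegree - 1)) := by
  choose f hf using hP
  have hlc : 0 < P.leadingCoeff := by
    by_contra hcon
    push Not at hcon
    have hne : P.leadingCoeff ≠ 0 := by
      rw [Ne, Polynomial.leadingCoeff_eq_zero]
      rintro rfl
      simp at hdeg
    have hlt : P.leadingCoeff < 0 := lt_of_le_of_ne hcon hne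
    have h1 := tendsto_of_pos (-P) (by rw [Polynomial.natDegree_neg]; omega)
      (by rw [Polynomial.leadingCoeff_neg]; linarith)
    obtain ⟨n, hn⟩ := (h1.eventually_gt_atTop 0).exists
    rw [Polynomial.eval_neg, hf n] at hn
    have : (0 : ℚ) ≤ f n := Nat.cast_nonneg _
    linarith
  have hlc1 := fd_leadingCoeff_pos P (by omega) hlc
  have hlc2 := fd_leadingCoeff_pos (fd P) (fd_natDegree_pos P hdeg) hlc1
  obtain ⟨N1, hN1⟩ := eventually_atTop.mp (eventually_pos _ hlc1)
  obtain ⟨N2, hN2⟩ := eventually_atTop.mp (eventually_pos _ hlc2)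
  -- beyond all earlier values
  have hinc : ∀ n, N1 ≤ n → f n < f (n + 1) := by
    intro n hn
    have := hN1 n hn
    rw [fd_eval, hf n] at this
    have h3 : (n : ℚ) + 1 = ((n + 1 : ℕ) : ℚ) := by push_cast; ring
    rw [h3, hf (n + 1)] at this
    have : (f n : ℚ) < f (n + 1) := by linarith
    exact_mod_cast this
  have hinc2 : ∀ n, N1 ≤ n → N2 ≤ n → f (n + 1) - f n < f (n + 2) - f (n + 1) := by
    intro n hn hn'
    have := hN2 n hn'
    rw [fd_eval, fd_eval, fd_eval, hf n] at this
    have h3 : (n : ℚ) + 1 = ((n + 1 : ℕ) : ℚ) := by push_cast; ring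
    have h4 : (n : ℚ) + 1 + 1 = ((n + 2 : ℕ) : ℚ) := by push_cast; ring
    rw [h4, h3, hf (n + 1), hf (n + 2)] at this
    have h5 := hinc n hn
    have h6 := hinc (n + 1) (by omega)
    have : (f (n + 1) : ℚ) + f (n + 1) < f (n + 2) + f n := by linarith
    have : f (n + 1) + f (n + 1) < f (n + 2) + f n := by exact_mod_cast this
    have h7 : f (n + 1 + 1) = f (n + 2) := rfl
    omega
  obtain ⟨N3, hN3⟩ : ∃ N3, N1 + N2 ≤ N3 ∧ ∀ j < N1 + N2, f j < f N3 := by
    have h1 := tendsto_of_pos P (by omega) hlc
    obtain ⟨N3, hN3⟩ := eventually_atTop.mp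
      (h1.eventually_gt_atTop ((∑ j ∈ Finset.range (N1 + N2), f j : ℕ) : ℚ))
    refine ⟨N1 + N2 + N3, by omega, fun j hj => ?_⟩
    have h2 := hN3 (N1 + N2 + N3) (by omega)
    rw [hf] at h2
    have h3 : ∑ j ∈ Finset.range (N1 + N2), f j < f (N1 + N2 + N3) := by exact_mod_cast h2
    exact lt_of_le_of_lt
      (Finset.single_le_sum (f := f) (fun _ _ => Nat.zero_le _) (Finset.mem_range.mpr hj)) h3
  obtain ⟨K, hK⟩ := exists_bound (fd P)
  have hmono : StrictMono (fun m => f (N3 + m)) := by
    apply strictMono_nat_of_lt_succ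
    intro m
    exact hinc (N3 + m) (by omega)
  refine ⟨fun m => f (N3 + m), K, N3, hmono, ?_, ?_, ?_, ?_⟩
  · apply strictMono_nat_of_lt_succ
    intro m
    exact hinc2 (N3 + m) (by omega) (by omega)
  · intro m
    exact ⟨N3 + m, hf _⟩
  · rintro x ⟨n, hn⟩ hx
    have hfn : f n = x := by
      have := (hf n).symm.trans hn
      exact_mod_cast this
    by_cases h : N3 ≤ n
    · exact ⟨n - N3, by
        simp only
        rw [← hfn]
        congr 1
        omega⟩
    · exfalso
      have hlt : f n < f N3 := by
        by_cases h' : n < N1 + N2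
        · exact hN3.2 n h'
        · have : ∀ k, 0 < k → f n < f (n + k) := by
            intro k hk
            induction k with
            | zero => omega
            | succ k ih =>
              have h8 := hinc (n + k) (by omega)
              rcases Nat.eq_zero_or_pos k with h9 | h9
              · subst h9; exact h8
              · exact (ih h9).trans h8
          have := this (N3 - n) (by omega)
          rwa [show n + (N3 - n) = N3 by omega] at this
      simp only [Nat.add_zero] at hx
      omega
  · intro m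
    have h1 := hK (N3 + m)
    rw [fd_eval] at h1
    have h3 : ((N3 + m : ℕ) : ℚ) + 1 = ((N3 + m + 1 : ℕ) : ℚ) := by push_cast; ring
    rw [h3, hf (N3 + m), hf (N3 + m + 1)] at h1
    have h5 := hinc (N3 + m) (by omega)
    have h6 : ((f (N3 + m + 1) - f (N3 + m) : ℕ) : ℚ) ≤
        ((K * (N3 + m + 1) ^ (P.natDegree - 1) : ℕ) : ℚ) := by
      rw [Nat.cast_sub h5.le]
      refine h1.trans ?_
      push_cast
      apply mul_le_mul_of_nonneg_left _ (Nat.cast_nonneg K)
      apply pow_le_pow_right₀ _ (fd_natDegree P (by omega))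
      have : (0 : ℚ) ≤ N3 := Nat.cast_nonneg _
      have : (0 : ℚ) ≤ m := Nat.cast_nonneg _
      linarith
    exact_mod_cast h6

/-- **Main theorem.** If `P ∈ ℚ[X]`, `deg P ≥ 2`, `P(ℕ) ⊆ ℕ` and `P(ℕ)` is `S`-recognisable for an
abstract numeration system `S = (L, A, <)`, then the number of words of length `n` of `L` is
`O(n^(deg P - 1))`; in particular the language `L` is polynomial. -/
theorem result {A : Type*} [Fintype A] [LinearOrder A] (S : ANS A) (P : Polynomial ℚ)
    (hP : ∀ n : ℕ, ∃ m : ℕ, P.eval (n : ℚ) = (m : ℚ)) (hdeg : 2 ≤ P.natDegree)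
    (hrec : S.Recognisable (valueSet P)) :
    IsPolynomialLanguage S.L ∧
      (fun n : ℕ => ({w : List A | w ∈ S.L ∧ w.length = n}.ncard : ℝ)) =O[atTop]
        (fun n : ℕ => (n : ℝ) ^ (P.natDegree - 1)) := by
  suffices h : (fun n : ℕ => ({w : List A | w ∈ S.L ∧ w.length = n}.ncard : ℝ)) =O[atTop]
        (fun n : ℕ => (n : ℝ) ^ (P.natDegree - 1)) from ⟨⟨_, h⟩, h⟩
  obtain ⟨a, K, n0, ha, hgap, hmem, hcov, hK⟩ := exists_sequence P hP hdeg
  obtain ⟨C, n1, hC⟩ := core S (valueSet P) a hrec ha hgap hmem hcov
  set d := P.natDegree - 1 with hd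
  apply Asymptotics.IsBigO.of_bound (((C + 1) * (K * (n0 + 2 * C + C + 1) ^ d) : ℕ) : ℝ)
  filter_upwards [eventually_ge_atTop (max n1 1)] with n hn
  have hn1 : n1 ≤ n := (le_max_left _ _).trans hn
  have hn2 : 1 ≤ n := (le_max_right _ _).trans hn
  have h1 := (hC n hn1).trans (Nat.mul_le_mul_left _ (hK (C * (n + 1) + C)))
  have h2 : n0 + (C * (n + 1) + C) + 1 ≤ (n0 + 2 * C + C + 1) * n := by
    nlinarith [Nat.zero_le n0, Nat.zero_le C, Nat.mul_le_mul_left n0 hn2,
      Nat.mul_le_mul_left C hn2]
  have h3 : {w : List A | w ∈ S.L ∧ w.length = n}.ncard ≤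
      (C + 1) * (K * (n0 + 2 * C + C + 1) ^ d) * n ^ d := by
    calc _ ≤ _ := h1
      _ ≤ (C + 1) * (K * ((n0 + 2 * C + C + 1) * n) ^ d) :=
        Nat.mul_le_mul_left _ (Nat.mul_le_mul_left _ (Nat.pow_le_pow_left h2 d))
      _ = _ := by rw [mul_pow]; ring
  rw [Real.norm_of_nonneg (Nat.cast_nonneg _), Real.norm_of_nonneg (by positivity)]
  exact_mod_cast h3

end Pool.Agent.Results.MP_8c22a7_lc.PolynomialValueSets
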